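import Mathlib

/-!
# Milman's modulus `β⁺` differs from the quasi-orthogonal modulus `ζ⁺`

In the plane with a regular hexagon as unit ball one has `β⁺(ε) < ζ⁺(ε) - 1` for every `ε > 0`.
-/

namespace Pool.Agent.Results.MP_4f9fa7_an.HexagonalPlane

/-! ### Definitions -/

section defs

variable {X : Type*} [NormedAddCommGroup X] [NormedSpace ℝ X]

/-- `y` is quasi-orthogonal to the unit vector `x`: some norm-one functional `p` with `p x = 1`
vanishes at `y`. -/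
def QuasiOrth (x y : X) : Prop := ∃ p : X →L[ℝ] ℝ, ‖p‖ = 1 ∧ p x = 1 ∧ p y = 0

variable (X)

/-- `ζ⁺_X(ε) = sup {‖x + ε y‖ : x, y ∈ S, y ⊥ x}`. -/
noncomputable def zetaPlus (ε : ℝ) : ℝ :=
  sSup {r | ∃ x y : X, ‖x‖ = 1 ∧ ‖y‖ = 1 ∧ QuasiOrth x y ∧ r = ‖x + ε • y‖}

/-- `β⁺_X(ε) = sup {min {‖x + ε y‖, ‖x - ε y‖} - 1 : x, y ∈ S}`. -/
noncomputable def betaPlus (ε : ℝ) : ℝ :=
  sSup {r | ∃ x y : X, ‖x‖ = 1 ∧ ‖y‖ = 1 ∧ r = min ‖x + ε • y‖ ‖x - ε • y‖ - 1}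

end defs

/-! ### The hexagonal plane -/

/-- The sum of the coordinates. -/
noncomputable def tot : (Fin 3 → ℝ) →ₗ[ℝ] ℝ where
  toFun v := v 0 + v 1 + v 2
  map_add' v w := by simp only [Pi.add_apply]; ring
  map_smul' c v := by simp only [Pi.smul_apply, smul_eq_mul, RingHom.id_apply]; ring

/-- The plane of all vectors of `ℝ³` with coordinate sum `0`, with the maximum norm. -/
abbrev Hex : Type := LinearMap.ker tot

lemma hex_sum (v : Hex) : (v : Fin 3 → ℝ) 0 + (v : Fin 3 → ℝ) 1 + (v : Fin 3 → ℝ) 2 = 0 :=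
  LinearMap.mem_ker.mp v.2

lemma hex_coord_le (v : Hex) (i : Fin 3) : |(v : Fin 3 → ℝ) i| ≤ ‖v‖ := by
  have := norm_le_pi_norm (v : Fin 3 → ℝ) i
  simpa using this

lemma hex_exists (v : Hex) (c : ℝ) (hc : 0 ≤ c) (h : c < ‖v‖) : ∃ i, c < |(v : Fin 3 → ℝ) i| := by
  by_contra hcon
  push Not at hcon
  have : ‖(v : Fin 3 → ℝ)‖ ≤ c := (pi_norm_le_iff_of_nonneg hc).mpr (by simpa using hcon)
  exact absurd h (not_lt.mpr this)

lemma finrank_hex : Module.finrank ℝ Hex = 2 := by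
  have h1 := LinearMap.finrank_range_add_finrank_ker tot
  have h2 : LinearMap.range tot = ⊤ := by
    rw [LinearMap.range_eq_top]
    intro r
    exact ⟨![r, 0, 0], by simp [tot]⟩
  rw [h2, finrank_top, Module.finrank_self, Module.finrank_fin_fun] at h1
  have h3 : 1 + Module.finrank ℝ Hex = 3 := h1
  omega

lemma beta_le (ε : ℝ) (hε : 0 < ε) (x y : Hex) (hx : ‖x‖ = 1) (hy : ‖y‖ = 1) :
    min ‖x + ε • y‖ ‖x - ε • y‖ - 1 ≤ ε - min 1 ε / 2 := by
  by_contra hcon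
  push Not at hcon
  have hδ1 : min 1 ε / 2 ≤ 1 / 2 := by linarith [min_le_left 1 ε]
  have hδ2 : min 1 ε / 2 ≤ ε / 2 := by linarith [min_le_right 1 ε]
  have hδ0 : 0 < min 1 ε / 2 := by
    have : 0 < min 1 ε := lt_min one_pos hε
    linarith
  set δ := min 1 ε / 2 with hδ
  have h1 : 1 + ε - δ < ‖x + ε • y‖ := by
    have := min_le_left ‖x + ε • y‖ ‖x - ε • y‖
    linarith
  have h2 : 1 + ε - δ < ‖x - ε • y‖ := by
    have := min_le_right ‖x + ε • y‖ ‖x - ε • y‖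
    linarith
  obtain ⟨i, hi⟩ := hex_exists _ _ (by linarith) h1
  obtain ⟨j, hj⟩ := hex_exists _ _ (by linarith) h2
  have hxs := hex_sum x
  have hys := hex_sum (ε • y)
  have hyn : ‖ε • y‖ = ε := by rw [norm_smul, hy, mul_one, Real.norm_of_nonneg hε.le]
  have x0 := abs_le.mp ((hex_coord_le x 0).trans_eq hx)
  have x1 := abs_le.mp ((hex_coord_le x 1).trans_eq hx)
  have x2 := abs_le.mp ((hex_coord_le x 2).trans_eq hx)
  have y0 := abs_le.mp ((hex_coord_le (ε • y) 0).trans_eq hyn)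
  have y1 := abs_le.mp ((hex_coord_le (ε • y) 1).trans_eq hyn)
  have y2 := abs_le.mp ((hex_coord_le (ε • y) 2).trans_eq hyn)
  have hi' : 1 + ε - δ < |(x : Fin 3 → ℝ) i + ((ε • y : Hex) : Fin 3 → ℝ) i| := hi
  have hj' : 1 + ε - δ < |(x : Fin 3 → ℝ) j - ((ε • y : Hex) : Fin 3 → ℝ) j| := hj
  generalize (x : Fin 3 → ℝ) = a at *
  generalize ((ε • y : Hex) : Fin 3 → ℝ) = b at *
  obtain ⟨x0l, x0r⟩ := x0
  obtain ⟨x1l, x1r⟩ := x1
  obtain ⟨x2l, x2r⟩ := x2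
  obtain ⟨y0l, y0r⟩ := y0
  obtain ⟨y1l, y1r⟩ := y1
  obtain ⟨y2l, y2r⟩ := y2
  fin_cases i <;> fin_cases j <;> simp only [Fin.zero_eta, Fin.mk_one, Fin.reduceFinMk] at hi' hj' <;>
    rcases lt_abs.mp hi' with h3 | h3 <;> rcases lt_abs.mp hj' with h4 | h4 <;> linarith

/-- Two unit vectors. -/
noncomputable def vx : Hex := ⟨![1, -1, 0], by simp [tot]⟩

noncomputable def vy : Hex := ⟨![1, 0, -1], by simp [tot]⟩

lemma norm_of (v : Hex) (i : Fin 3) (hi : (v : Fin 3 → ℝ) i = 1) (h : ∀ j, |(v : Fin 3 → ℝ) j| ≤ 1) :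
    ‖v‖ = 1 := by
  apply le_antisymm
  · have : ‖(v : Fin 3 → ℝ)‖ ≤ 1 := (pi_norm_le_iff_of_nonneg zero_le_one).mpr (by simpa using h)
    exact this
  · have := hex_coord_le v i
    rw [hi, abs_one] at this
    exact this

lemma norm_vx : ‖vx‖ = 1 := by
  apply norm_of vx 0
  · simp [vx]
  · intro j; fin_cases j <;> simp [vx]

lemma norm_vy : ‖vy‖ = 1 := by
  apply norm_of vy 0
  · simp [vy]
  · intro j; fin_cases j <;> simp [vy]

noncomputable def pf : Hex →L[ℝ] ℝ :=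
  -((ContinuousLinearMap.proj (R := ℝ) (φ := fun _ : Fin 3 => ℝ) 1).comp
    (Submodule.subtypeL (LinearMap.ker tot)))

lemma pf_apply (v : Hex) : pf v = -(v : Fin 3 → ℝ) 1 := rfl

lemma pf_norm : ‖pf‖ = 1 := by
  apply le_antisymm
  · apply ContinuousLinearMap.opNorm_le_bound _ zero_le_one
    intro v
    rw [pf_apply, norm_neg, Real.norm_eq_abs, one_mul]
    exact hex_coord_le v 1
  · have h1 := pf.le_opNorm vx
    have h2 : pf vx = 1 := by rw [pf_apply]; simp [vx]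
    rw [h2, norm_vx, mul_one, norm_one] at h1
    exact h1

lemma zeta_ge (ε : ℝ) (hε : 0 < ε) : 1 + ε ≤ zetaPlus Hex ε := by
  have hbdd : BddAbove {r | ∃ x y : Hex, ‖x‖ = 1 ∧ ‖y‖ = 1 ∧ QuasiOrth x y ∧
      r = ‖x + ε • y‖} := by
    refine ⟨1 + ε, ?_⟩
    rintro r ⟨x, y, hx, hy, -, rfl⟩
    calc ‖x + ε • y‖ ≤ ‖x‖ + ‖ε • y‖ := norm_add_le _ _
      _ = 1 + ε := by rw [norm_smul, hx, hy, mul_one, Real.norm_of_nonneg hε.le]
  have hmem : ‖vx + ε • vy‖ ≤ zetaPlus Hex ε := by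
    apply le_csSup hbdd
    refine ⟨vx, vy, norm_vx, norm_vy, ⟨pf, pf_norm, ?_, ?_⟩, rfl⟩
    · rw [pf_apply]; simp [vx]
    · rw [pf_apply]; simp [vy]
  refine le_trans ?_ hmem
  have h1 := hex_coord_le (vx + ε • vy) 0
  have h2 : ((vx + ε • vy : Hex) : Fin 3 → ℝ) 0 = 1 + ε := by simp [vx, vy]
  rw [h2] at h1
  exact (le_abs_self _).trans h1

/-- There is a two-dimensional real Banach space `X` with `β⁺_X(ε) < ζ⁺_X(ε) - 1` for every
`ε > 0`. -/
theorem result : ∃ (X : Type) (_ : NormedAddCommGroup X) (_ : NormedSpace ℝ X),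
    CompleteSpace X ∧ Module.finrank ℝ X = 2 ∧
      ∀ ε : ℝ, 0 < ε → betaPlus X ε < zetaPlus X ε - 1 := by
  refine ⟨Hex, inferInstance, inferInstance, inferInstance, finrank_hex, ?_⟩
  intro ε hε
  have h1 := zeta_ge ε hε
  have h2 : betaPlus Hex ε ≤ ε - min 1 ε / 2 := by
    apply Real.sSup_le
    · rintro r ⟨x, y, hx, hy, rfl⟩
      exact beta_le ε hε x y hx hy
    · have := min_le_right 1 ε
      linarith
  have h3 : 0 < min 1 ε := lt_min one_pos hε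
  linarith

end Pool.Agent.Results.MP_4f9fa7_an.HexagonalPlane
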